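import Mathlib

namespace Pool.Agent.Results.MP_ff84c4_al.MarkovNe
open Set Filter Topology

/-- Open sets of the Markov topology: open in every Hausdorff group topology. -/
def MarkovOpen {G : Type} [Group G] (U : Set G) : Prop :=
  ∀ t : TopologicalSpace G, @IsTopologicalGroup G t _ → @T2Space G t → IsOpen[t] U

/-- The centralizer topology. -/
def centTop (G : Type) [Group G] : TopologicalSpace G :=
  TopologicalSpace.generateFrom {S | ∃ a b : G, S = {x | x * b * x⁻¹ = a * b * a⁻¹}}

def sg (x : ZMod 2) : ZMod 3 := if x = 0 then 1 else -1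

lemma sg_add : ∀ x y, sg (x + y) = sg x * sg y := by decide
lemma sg_neg : ∀ x, sg (-x) = sg x := by decide

def χ (b : Bool × ℕ →₀ ZMod 2) (p : ℕ × ℕ) : ZMod 3 := sg (b (false, p.1) + b (true, p.2))

lemma χ_add (b c : Bool × ℕ →₀ ZMod 2) : χ (b + c) = χ b * χ c := by
  funext p; simp only [χ, Finsupp.add_apply, Pi.mul_apply, sg_add]; ring

lemma χ_zero : χ 0 = 1 := by funext p; simp [χ, sg]

@[ext] structure G where
  a : ℕ × ℕ →₀ ZMod 3
  b : Bool × ℕ →₀ ZMod 2

noncomputable instance : Group G where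
  mul x y := ⟨x.a + χ x.b • y.a, x.b + y.b⟩
  one := ⟨0, 0⟩
  inv x := ⟨-(χ (-x.b) • x.a), -x.b⟩
  mul_assoc x y z := G.ext
    (show x.a + χ x.b • y.a + χ (x.b + y.b) • z.a = x.a + χ x.b • (y.a + χ y.b • z.a) by
      rw [χ_add, smul_add, mul_smul, add_assoc]) (add_assoc _ _ _)
  one_mul x := G.ext (show 0 + χ 0 • x.a = x.a by simp [χ_zero]) (zero_add _)
  mul_one x := G.ext (show x.a + χ x.b • 0 = x.a by simp) (add_zero _)
  inv_mul_cancel x := G.ext (neg_add_cancel _) (neg_add_cancel _)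

lemma comm_iff (x y : G) : x * y = y * x ↔
    ∀ p, x.a p + χ x.b p * y.a p = y.a p + χ y.b p * x.a p :=
  ⟨fun h p => DFunLike.congr_fun (congrArg G.a h) p,
    fun h => G.ext (Finsupp.ext h) (add_comm _ _)⟩

lemma h3 : ∀ x : ZMod 2, ∀ y : ZMod 3, y = y * sg x → y ≠ 0 → x = 0 := by decide

lemma bound (n : ℕ) (g : G)
    (h1 : ∀ p : ℕ × ℕ, n ≤ p.1 → n ≤ p.2 → ⟨.single p 1, 0⟩ * g = g * ⟨.single p 1, 0⟩)
    (h2 : ∀ q : Bool × ℕ, n ≤ q.2 → ⟨0, .single q 1⟩ * g = g * ⟨0, .single q 1⟩) :
    (∀ p, g.a p ≠ 0 → p.1 < n ∧ p.2 < n) ∧ ∀ q, g.b q ≠ 0 → q.2 < n := by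
  constructor
  · rintro ⟨i, j⟩ hp
    by_contra hc
    rcases (by omega : n ≤ i ∨ n ≤ j) with h | h
    · have := (comm_iff _ _).1 (h2 (false, i) h) (i, j)
      simp only [χ, Finsupp.coe_zero, Pi.zero_apply, zero_add, mul_zero, add_zero] at this
      simpa using h3 _ _ (this.symm.trans (mul_comm _ _)) hp
    · have := (comm_iff _ _).1 (h2 (true, j) h) (i, j)
      simp only [χ, Finsupp.coe_zero, Pi.zero_apply, zero_add, mul_zero, add_zero] at this
      simpa using h3 _ _ (this.symm.trans (mul_comm _ _)) hp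
  · have h4 : ∀ i j, n ≤ i → n ≤ j → g.b (false, i) + g.b (true, j) = 0 := fun i j hi hj => by
      have := (comm_iff _ _).1 (h1 (i, j) hi hj) (i, j)
      simp only [χ_zero, Finsupp.single_eq_same, Pi.one_apply, one_mul, mul_one] at this
      exact h3 _ 1 (by rw [one_mul]; exact add_left_cancel ((add_comm _ _).trans this)) (by decide)
    obtain ⟨N, hN⟩ := (g.b.support.image Prod.snd).bddAbove
    have h5 : ∀ c, g.b (c, N + n + 1) = 0 := fun c => by
      by_contra h
      have : N + n + 1 ≤ N := hN (Finset.mem_coe.2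
        (Finset.mem_image_of_mem Prod.snd (Finsupp.mem_support_iff.2 h)))
      omega
    rintro ⟨_ | _, i⟩ hq <;> by_contra hc
    · exact hq (by simpa [h5] using h4 i (N + n + 1) (by omega) (by omega))
    · exact hq (by simpa [h5] using h4 (N + n + 1) i (by omega) (by omega))

lemma fdc (F : Set G) (hF : F.Finite) : (Set.centralizer (Set.centralizer F)).Finite := by
  obtain ⟨n, hn⟩ : ∃ n, ∀ f ∈ F, (∀ p, f.a p ≠ 0 → p.1 < n ∧ p.2 < n) ∧
      ∀ q, f.b q ≠ 0 → q.2 < n := by
    obtain ⟨N, hN⟩ := (hF.biUnion (t := fun f : G => ((f.a.support.image Prod.fst ∪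
      f.a.support.image Prod.snd ∪ f.b.support.image Prod.snd : Finset ℕ) : Set ℕ))
      fun f _ => Finset.finite_toSet _).bddAbove
    refine ⟨N + 1, fun f hf => ⟨fun p hp => ⟨?_, ?_⟩, fun q hq => ?_⟩⟩ <;>
      refine Nat.lt_succ_of_le (hN (mem_biUnion hf ?_)) <;>
      simp only [Finset.coe_union, Finset.coe_image, mem_union]
    · exact Or.inl (Or.inl ⟨p, by simpa using hp, rfl⟩)
    · exact Or.inl (Or.inr ⟨p, by simpa using hp, rfl⟩)
    · exact Or.inr ⟨q, by simpa using hq, rfl⟩
  have hb : ∀ g ∈ Set.centralizer (Set.centralizer F),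
      (∀ p, g.a p ≠ 0 → p.1 < n ∧ p.2 < n) ∧ ∀ q, g.b q ≠ 0 → q.2 < n := fun g hg => by
    refine bound n g (fun p h1 h2 => hg _ fun f hf => (comm_iff _ _).2 fun r => ?_)
      fun q h1 => hg _ fun f hf => (comm_iff _ _).2 fun r => ?_
    · have k1 : f.b (false, p.1) = 0 := by
        by_contra h; have := (hn f hf).2 _ h; simp only at this; omega
      have k2 : f.b (true, p.2) = 0 := by
        by_contra h; have := (hn f hf).2 _ h; simp only at this; omega
      by_cases h : p = r
      · subst h; simp [χ, sg, k1, k2, add_comm]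
      · simp [χ_zero, h]
    · by_cases h : f.a r = 0
      · simp [h]
      · obtain ⟨k1, k2⟩ := (hn f hf).1 r h
        have e1 : q ≠ (false, r.1) := by rintro rfl; simp only at h1; omega
        have e2 : q ≠ (true, r.2) := by rintro rfl; simp only at h1; omega
        simp [χ, sg, e1, e2]
  refine Set.Finite.of_finite_image (f := fun g : G =>
    ((fun p : Fin n × Fin n => g.a (p.1, p.2)), fun q : Bool × Fin n => g.b (q.1, q.2)))
    (Set.toFinite _) fun g hg g' hg' e => G.ext (Finsupp.ext fun p => ?_) (Finsupp.ext fun q => ?_)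
  · by_cases h : p.1 < n ∧ p.2 < n
    · exact congrFun (congrArg Prod.fst e) (⟨p.1, h.1⟩, ⟨p.2, h.2⟩)
    · rw [not_not.1 (mt ((hb g hg).1 p) h), not_not.1 (mt ((hb g' hg').1 p) h)]
  · by_cases h : q.2 < n
    · exact congrFun (congrArg Prod.snd e) (q.1, ⟨q.2, h⟩)
    · rw [not_not.1 (mt ((hb g hg).2 q) h), not_not.1 (mt ((hb g' hg').2 q) h)]

noncomputable def π : G →* (ℕ → G) where
  toFun g := fun n => ⟨g.a.filter fun p => p.2 < n, g.b⟩
  map_one' := funext fun _ => G.ext (Finsupp.filter_zero _) rfl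
  map_mul' x y := funext fun n => G.ext (Finsupp.ext fun p => by
    change (Finsupp.filter _ (x.a + χ x.b • y.a)) p = (Finsupp.filter _ x.a) p +
      χ x.b p * (Finsupp.filter _ y.a) p
    simp only [Finsupp.filter_apply]
    split_ifs
    · rfl
    · simp) rfl

theorem result : ∃ (G : Type) (_ : Group G), Countable G ∧ Subgroup.center G = ⊥ ∧
    (∀ F : Set G, F.Finite → (Set.centralizer (Set.centralizer F)).Finite) ∧
    ∃ U : Set G, IsOpen[centTop G] U ∧ ¬ MarkovOpen U := by
  refine ⟨G, inferInstance, ?_, ?_, fdc, {x | x * ⟨0, .single (false, 0) 1⟩ * x⁻¹ =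
    1 * ⟨0, .single (false, 0) 1⟩ * 1⁻¹}, TopologicalSpace.isOpen_generateFrom_of_mem ⟨_, _, rfl⟩,
    fun h => ?_⟩
  · exact Function.Injective.countable (f := fun g : G => (g.a, g.b)) fun _ _ e =>
      G.ext (congrArg Prod.fst e) (congrArg Prod.snd e)
  · rw [eq_bot_iff]
    intro g hg
    obtain ⟨h1, h2⟩ := bound 0 g (fun _ _ _ => Subgroup.mem_center_iff.1 hg _)
      fun _ _ => Subgroup.mem_center_iff.1 hg _
    exact G.ext (Finsupp.ext fun p => by_contra fun h => by simpa using h1 p h)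
      (Finsupp.ext fun p => by_contra fun h => by simpa using h2 p h)
  · let _ : TopologicalSpace G := ⊥
    have : DiscreteTopology G := ⟨rfl⟩
    have hinj : Function.Injective π := fun x y e => G.ext (Finsupp.ext fun p => by
      simpa [π, Finsupp.filter_apply] using
        DFunLike.congr_fun (congrArg G.a (congrFun e (p.2 + 1))) p) (by have := congrArg G.b (congrFun e 0); exact this)
    have ho := h (TopologicalSpace.induced π inferInstance) (topologicalGroup_induced π)
      (@IsEmbedding.t2Space _ _ (TopologicalSpace.induced π inferInstance) _ _ _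
        (@IsEmbedding.mk _ _ (TopologicalSpace.induced π inferInstance) _ _
          (@IsInducing.mk _ _ (TopologicalSpace.induced π inferInstance) _ _ rfl) hinj))
    obtain ⟨W, hW, e⟩ := ho
    have h1 : Tendsto (fun n => π ⟨.single (0, n) 1, 0⟩) atTop (𝓝 (π 1)) := by
      rw [tendsto_pi_nhds]
      intro m
      refine tendsto_const_nhds.congr' ?_
      filter_upwards [eventually_ge_atTop m] with n hn
      rw [map_one]
      exact G.ext (Finsupp.filter_single_of_neg _ (by simpa using hn)).symm rfl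
    have h2 : (1 : G) ∈ π ⁻¹' W := by rw [e]; rfl
    obtain ⟨n, hn⟩ := (h1.eventually (hW.mem_nhds h2)).exists
    have h4 : (⟨.single (0, n) 1, 0⟩ : G) ∈ π ⁻¹' W := hn
    rw [e] at h4
    simp only [mem_ofPred_eq, one_mul, inv_one, mul_one, mul_inv_eq_iff_eq_mul] at h4
    have := (comm_iff _ _).1 h4 (0, n)
    simp [χ, sg] at this
    exact absurd this (by decide)

end Pool.Agent.Results.MP_ff84c4_al.MarkovNe
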